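import Pool.Agent.H.MP_cc29fe_co.A

set_option autoImplicit false

namespace Pool.Agent.U195.LMD

open SimpleGraph Function Pool.Agent.H.MP_cc29fe_co

variable {V : Type}

lemma bx {a b : Bool} (h : a ≠ b) : a = !b := by
  cases a <;> cases b <;> simp_all

/-- no four pairwise adjacent vertices -/
def NoK4 (G : SimpleGraph V) : Prop :=
  ∀ a b c d : V, G.Adj a b → G.Adj a c → G.Adj a d → G.Adj b c → G.Adj b d → G.Adj c d → False

lemma noK4_of_cliqueFree {G : SimpleGraph V} (h : G.CliqueFree 4) : NoK4 G := by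
  classical
  intro a b c d hab hac had hbc hbd hcd
  have h1 : G.IsNClique 1 {d} := by
    refine ⟨?_, by simp⟩
    simp
  have h2 := h1.insert (a := c) (by simpa using hcd)
  have h3 := h2.insert (a := b) (by
    intro x hx
    rcases Finset.mem_insert.1 hx with rfl | hx
    · exact hbc
    · rw [Finset.mem_singleton.1 hx]; exact hbd)
  have h4 := h3.insert (a := a) (by
    intro x hx
    rcases Finset.mem_insert.1 hx with rfl | hx
    · exact hab
    · rcases Finset.mem_insert.1 hx with rfl | hx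
      · exact hac
      · rw [Finset.mem_singleton.1 hx]; exact had)
  exact h _ h4

/-- flipping a vertex `t` next to exactly one vertex of a bad pair has to merge two classes -/
lemma label [Finite V] [DecidableEq V] {G : SimpleGraph V} {c : V → Bool} {u v t : V}
    (hm : Mx G c) (hb : Bad G c u v) (ct : c t = c u) (htu : G.Adj t u) (htv : ¬ G.Adj t v)
    (hne : t ≠ v) :
    ∃ z z', c z ≠ c u ∧ c z' ≠ c u ∧ G.Adj z t ∧ ¬ G.Adj z' t ∧
      ∀ y, c y = c u → y ≠ t → (G.Adj y z ↔ G.Adj y z') := by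
  set d : Bool := !c u with hd
  have hdu : d ≠ c u := by rw [hd]; simp
  set c' := update c t d with hc'
  have ct' : c' t = d := by simp [hc']
  have co : ∀ z, z ≠ t → c' z = c z := fun z hz => by simp [hc', hz]
  have tu : t ≠ u := htu.ne
  by_contra hno
  -- keys are refined
  have href : ∀ x ∈ ({t}ᶜ : Set V), ∀ y ∈ ({t}ᶜ : Set V), key G c' x = key G c' y →
      key G c x = key G c y := by
    intro x hx y hy h
    have hx' : x ≠ t := hx
    have hy' : y ≠ t := hy
    obtain ⟨e1, e2⟩ := key_eq.1 h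
    rw [co x hx', co y hy'] at e1
    rw [co x hx'] at e2
    refine key_eq.2 ⟨e1, fun z hz => ?_⟩
    by_cases hzt : z = t
    · subst hzt
      -- x, y have the colour d
      have hxd : c x ≠ c u := by rw [← ct]; exact hz.symm
      by_contra hne2
      have hyd : c y ≠ c u := by rw [← e1]; exact hxd
      have hag : ∀ w, c w = c u → w ≠ z → (G.Adj w x ↔ G.Adj w y) := by
        intro w hw hwz
        refine e2 w ?_
        rw [co w hwz, hw]
        exact hxd.symm
      by_cases hzx : G.Adj z x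
      · refine hno ⟨x, y, hxd, hyd, hzx.symm, fun h5 => hne2 ⟨fun _ => h5.symm, fun _ => hzx⟩,
          fun w hw hwz => hag w hw hwz⟩
      · have hzy : G.Adj z y := by
          by_contra h5
          exact hne2 ⟨fun h6 => absurd h6 hzx, fun h6 => absurd h6 h5⟩
        exact hno ⟨y, x, hyd, hxd, hzy.symm, fun h5 => hzx h5.symm,
          fun w hw hwz => (hag w hw hwz).symm⟩
    · exact e2 z (by rw [co z hzt]; exact hz)
  have hlt : (key G c '' {t}ᶜ).ncard < (key G c' '' {t}ᶜ).ncard := by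
    refine ref_lt _ _ _ href (p := u) (q := v) tu.symm hne.symm (key_eq.2 hb.2) ?_
    intro h
    obtain ⟨e1, e2⟩ := key_eq.1 h
    rw [co u tu.symm] at e2
    exact htv ((e2 t (by rw [ct']; exact hdu)).1 htu)
  have hnew : key G c' t ∉ key G c' '' {t}ᶜ := by
    rintro ⟨z, hz, e⟩
    have hz' : z ≠ t := hz
    obtain ⟨e1, e2⟩ := key_eq.1 e
    rw [co z hz', ct'] at e1
    rw [co z hz'] at e2
    have hcz : c z ≠ c u := by rw [e1]; exact hdu
    have h1 := e2 u (by rw [co u tu.symm]; exact hcz.symm)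
    have h2 := e2 v (by rw [co v hne.symm, ← hb.2.1]; exact hcz.symm)
    have h3 := hb.2.2 z hcz
    exact htv ((h2.1 ((h3.1 (h1.2 htu.symm).symm).symm)).symm)
  have h1 : Set.range (key G c') = insert (key G c' t) (key G c' '' {t}ᶜ) := by
    ext y
    constructor
    · rintro ⟨x, rfl⟩
      by_cases hx : x = t
      · left; rw [hx]
      · right; exact ⟨x, hx, rfl⟩
    · rintro (rfl | ⟨x, _, rfl⟩)
      · exact ⟨t, rfl⟩
      · exact ⟨x, rfl⟩
  have h2 : Set.range (key G c) ⊆ insert (key G c t) (key G c '' {t}ᶜ) := by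
    rintro _ ⟨x, rfl⟩
    by_cases hx : x = t
    · left; rw [hx]
    · right; exact ⟨x, hx, rfl⟩
  have h3 : Phi G c ≤ (key G c '' {t}ᶜ).ncard + 1 :=
    (Set.ncard_le_ncard h2 (Set.toFinite _)).trans (Set.ncard_insert_le _ _)
  have h4 : Phi G c' = (key G c' '' {t}ᶜ).ncard + 1 := by
    unfold Phi
    rw [h1, Set.ncard_insert_of_notMem hnew (Set.toFinite _)]
  have h5 := hm c'
  omega

/-- A state: a maximal colouring with a bad pair `u`, `v`. -/
structure St (G : SimpleGraph V) (c : V → Bool) (u v : V) : Prop where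
  mx : Mx G c
  bad : Bad G c u v

variable {G : SimpleGraph V} {c : V → Bool} {u v : V}

lemma St.symm (h : St G c u v) : St G c v u := ⟨h.mx, h.bad.symm⟩

variable [DecidableEq V]

/-- The partner of `u` in the other class. -/
def Next (G : SimpleGraph V) (c : V → Bool) (u v w : V) : Prop :=
  c w ≠ c u ∧ G.Adj w u ∧ G.Adj w v ∧ (∀ z, c z = c u → z ≠ u → (G.Adj z u ↔ G.Adj z w)) ∧
    St G (update c u (!c u)) w u

lemma St.next [Finite V] (h : St G c u v) : ∃ w, Next G c u v w := by
  obtain ⟨k, ku, k1, k3, k4, k5⟩ := partners h.mx h.bad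
  have hd : (!c u) ≠ c u := by simp
  refine ⟨k (!c u), ?_, ?_, ?_, ?_, ?_⟩
  · rw [k1]; exact hd
  · have := k4 _ _ hd
    rwa [ku] at this
  · exact (k5 _).symm
  · intro z hz hzu
    have := (k3 _ hd).2.2.2 z (by
      rw [update_of_ne hzu, update_self, hz]; exact hd.symm)
    exact this
  · exact ⟨(k3 _ hd).1, (k3 _ hd).2.symm⟩

/-- common neighbours of a bad pair in their own class do not exist -/
lemma St.noP [Finite V] (h : St G c u v) (k4 : NoK4 G) {z : V} (hz : c z = c u) (hu : G.Adj z u)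
    (hv : G.Adj z v) : False := by
  obtain ⟨w, w1, w2, w3, w4, w5⟩ := h.next
  have h1 : G.Adj z w := (w4 z hz hu.ne).1 hu
  exact k4 z u v w hu hv h1 h.bad.1 w2.symm w3.symm

/-- the partners of `u` and `v` are different -/
lemma St.ne [Finite V] (h : St G c u v) (k4 : NoK4 G) (hc : G.Connected) (hn : 4 ≤ Nat.card V)
    {w : V} (hw : Next G c u v w) (hw' : Next G c v u w) : False := by
  obtain ⟨w1, w2, w3, w4, w5⟩ := hw
  obtain ⟨_, _, _, w4', _⟩ := hw'
  obtain ⟨y, y1, y2, y3, y4, y5⟩ := w5.next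
  have huv : c u = c v := h.bad.2.1
  have hwu : w ≠ u := w2.ne
  have hd : (!c u) ≠ c u := by simp
  have cw : c w = !c u := by
    cases hcu : c u <;> cases hcw : c w <;> simp_all
  rw [update_of_ne hwu] at y1
  have hyu : y ≠ u := y3.ne
  rw [update_of_ne hyu, cw] at y1
  have cy : c y = c u := by
    cases hcu : c u <;> cases hcy : c y <;> simp_all
  -- `y = v`
  have hyv : y = v := by
    by_contra hne
    have a1 : G.Adj y v := (w4' y (cy.trans huv) hne).2 y2
    exact h.noP k4 cy y3 a1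
  subst hyv
  -- `N(u) ⊆ {y, w}`
  have hu' : ∀ z, G.Adj z u → z = y ∨ z = w := by
    intro z hz
    by_contra hne
    rw [not_or] at hne
    by_cases hzc : c z = c u
    · have b1 : G.Adj z w := (w4 z hzc hz.ne).1 hz
      have b2 : G.Adj z y := (w4' z (hzc.trans huv) hne.1).2 b1
      exact h.noP k4 hzc hz b2
    · have b1 : G.Adj z y := (h.bad.2.2 z hzc).1 hz
      have hzu : z ≠ u := hz.ne
      have b2 : G.Adj z w := by
        refine (y4 z ?_ hne.2).2 b1
        rw [update_of_ne hzu, update_of_ne hwu, cw]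
        exact bx hzc
      exact k4 z u y w hz b1 b2 h.bad.1 w2.symm w3.symm
  have hy' : ∀ z, G.Adj z y → z = u ∨ z = w := by
    intro z hz
    by_contra hne
    rw [not_or] at hne
    have hzu : ¬ G.Adj z u := by
      intro h1
      rcases hu' z h1 with h2 | h2
      · exact hz.ne h2
      · exact hne.2 h2
    by_cases hzc : c z = c u
    · have b1 : G.Adj z w := (w4' z (hzc.trans huv) hz.ne).1 hz
      exact hzu ((w4 z hzc hne.1).2 b1)
    · exact hzu ((h.bad.2.2 z hzc).2 hz)
  have hw'' : ∀ z, G.Adj z w → z = u ∨ z = y := by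
    intro z hz
    by_contra hne
    rw [not_or] at hne
    by_cases hzc : c z = c u
    · have b1 : G.Adj z u := (w4 z hzc hne.1).2 hz
      rcases hu' z b1 with h2 | h2
      · exact hne.2 h2
      · exact hz.ne h2
    · have b1 : G.Adj z y := by
        refine (y4 z ?_ hz.ne).1 hz
        rw [update_of_ne hne.1, update_of_ne hwu, cw]
        exact bx hzc
      rcases hy' z b1 with h2 | h2
      · exact hne.1 h2
      · exact hz.ne h2
  have hall : ∀ z, z ∈ ({u, y, w} : Set V) := by
    refine closed_univ hc _ (a := u) (by simp) ?_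
    intro x hx z hz
    simp only [Set.mem_insert_iff, Set.mem_singleton_iff] at hx ⊢
    rcases hx with rfl | rfl | rfl
    · rcases hu' z hz with h1 | h1 <;> simp [h1]
    · rcases hy' z hz with h1 | h1 <;> simp [h1]
    · rcases hw'' z hz with h1 | h1 <;> simp [h1]
  have : Nat.card V ≤ 3 := by
    rw [← Set.ncard_univ]
    have h1 : (Set.univ : Set V) ⊆ {u, y, w} := fun z _ => hall z
    refine (Set.ncard_le_ncard h1 (Set.toFinite _)).trans ?_
    exact (Set.ncard_insert_le _ _).trans (Nat.succ_le_succ ((Set.ncard_insert_le _ _).trans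
      (by simp)))
  omega

/-- Two consecutive partners. `x` is in the class of `u`, next to `u` and `w` but not to `v`, and
its neighbours in the class of `w` are `w` and the neighbours of `w`. -/
lemma St.next2 [Finite V] (h : St G c u v) (k4 : NoK4 G) (hc : G.Connected)
    (hn : 4 ≤ Nat.card V) {w x : V} (hw : Next G c u v w)
    (hx : Next G (update c u (!c u)) w u x) :
    c x = c u ∧ x ≠ u ∧ x ≠ v ∧ G.Adj x u ∧ G.Adj x w ∧ ¬ G.Adj x v ∧
      ∀ z, c z ≠ c u → z ≠ w → (G.Adj z w ↔ G.Adj z x) := by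
  obtain ⟨w', hw'⟩ := h.symm.next
  have hww : w ≠ w' := by
    rintro rfl
    exact h.ne k4 hc hn hw hw'
  obtain ⟨w1, w2, w3, w4, w5⟩ := hw
  obtain ⟨x1, x2, x3, x4, x5⟩ := hx
  obtain ⟨v1, v2, v3, v4, v5⟩ := hw'
  have huv : c u = c v := h.bad.2.1
  have hwu : w ≠ u := w2.ne
  have hxu : x ≠ u := x3.ne
  have cw : c w = !c u := by
    cases hcu : c u <;> cases hcw : c w <;> simp_all
  rw [update_of_ne hwu, update_of_ne hxu, cw] at x1
  have cx : c x = c u := by
    cases hcu : c u <;> cases hcy : c x <;> simp_all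
  have x6 : ∀ z, c z ≠ c u → z ≠ w → (G.Adj z w ↔ G.Adj z x) := by
    intro z hz hzw
    refine x4 z ?_ hzw
    have hzu : z ≠ u := by
      rintro rfl
      exact hz rfl
    rw [update_of_ne hzu, update_of_ne hwu, cw]
    cases hcu : c u <;> cases hcz : c z <;> simp_all
  have hxv : x ≠ v := by
    rintro rfl
    have a1 : G.Adj w' w := (x6 w' (by rw [huv]; exact v1) hww.symm).2 v2
    exact k4 w' w u x a1 v3 v2 w2 w3 h.bad.1
  refine ⟨cx, hxu, hxv, x3, x2, fun h1 => h.noP k4 cx x3 h1, x6⟩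

/-- The key lemma. -/
lemma St.key [Finite V] (h : St G c u v) (k4 : NoK4 G) (hc : G.Connected)
    (hn : 4 ≤ Nat.card V) {w x : V} (hw : Next G c u v w)
    (hx : Next G (update c u (!c u)) w u x) :
    ∃ q, c q ≠ c u ∧ G.Adj q u ∧ G.Adj q v ∧ q ≠ w ∧ ¬ G.Adj q x ∧
      ∀ y, c y = c u → y ≠ x → (G.Adj y q ↔ G.Adj y w) := by
  classical
  obtain ⟨w', hw'⟩ := h.symm.next
  have hww : w ≠ w' := by
    rintro rfl
    exact h.ne k4 hc hn hw hw'
  obtain ⟨cx, hxu, hxv, xu, xw, nxv, hx6⟩ := h.next2 k4 hc hn hw hx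
  obtain ⟨w1, w2, w3, w4, w5⟩ := hw
  obtain ⟨v1, v2, v3, v4, v5⟩ := hw'
  have huv : c u = c v := h.bad.2.1
  have hwu : w ≠ u := w2.ne
  have cw : c w = !c u := by
    cases hcu : c u <;> cases hcw : c w <;> simp_all
  have nww : ¬ G.Adj w' w := fun h1 => k4 w' w u v h1 v3 v2 w2 w3 h.bad.1
  -- the set of the candidates
  let T : Set V := {t | c t = c u ∧ G.Adj t u ∧ ¬ G.Adj t v ∧ t ≠ v ∧
    ∀ z, c z ≠ c u → G.Adj z t → z = w ∨ G.Adj z w}
  have hxT : x ∈ T := by
    refine ⟨cx, xu, nxv, hxv, fun z hz hzx => ?_⟩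
    by_cases hzw : z = w
    · exact Or.inl hzw
    · exact Or.inr ((hx6 z hz hzw).2 hzx)
  obtain ⟨t, ⟨t1, t2, t3, t4, t5⟩, tmin⟩ := Set.exists_min_image T
    (fun t => {z | c z ≠ c u ∧ G.Adj z t}.ncard) (Set.toFinite _) ⟨x, hxT⟩
  obtain ⟨z, z', cz, cz', zt, nz't, hag⟩ := label h.mx h.bad t1 t2 t3 t4
  have tu : t ≠ u := t2.ne
  by_cases hzw : z = w
  · subst hzw
    have q1 : G.Adj z' u := ((hag u rfl tu.symm).1 w2.symm).symm
    have q2 : G.Adj z' v := ((hag v huv.symm t4.symm).1 w3.symm).symm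
    have q3 : z' ≠ z := by
      rintro rfl
      exact nz't zt
    have q4 : ¬ G.Adj z' z := fun h1 => k4 z' z u v h1 q1 q2 w2 w3 h.bad.1
    have q5 : ¬ G.Adj z' x := fun h1 => q4 ((hx6 z' cz' q3).2 h1)
    have htx : t = x := by
      by_contra hne
      exact q5 ((hag x cx (Ne.symm hne)).1 xw).symm
    subst htx
    exact ⟨z', cz', q1, q2, q3, q5, fun y hy hyt => (hag y hy hyt).symm⟩
  · exfalso
    have zw : G.Adj z w := (t5 z cz zt).resolve_left hzw
    have nzu : ¬ G.Adj z u := fun h1 => by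
      have h2 : G.Adj z v := (h.bad.2.2 z cz).1 h1
      exact k4 z w u v zw h1 h2 w2 w3 h.bad.1
    have hzu : z ≠ u := by
      rintro rfl
      exact cz rfl
    obtain ⟨a, a', ca, ca', az, na'z, hag2⟩ := label w5.mx w5.bad (t := z) (by
      rw [update_of_ne hwu, update_of_ne hzu, cw]
      cases hcu : c u <;> cases hcz : c z <;> simp_all) zw nzu hzu
    have hau : a ≠ u := by
      rintro rfl
      exact nzu az.symm
    have ca2 : c a = c u := by
      rw [update_of_ne hwu, cw, update_of_ne hau] at ca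
      cases hcu : c u <;> cases hca : c a <;> simp_all
    have ha'u : a' ≠ u := by
      rintro rfl
      rw [update_of_ne hwu, cw, update_self] at ca'
      exact ca' rfl
    have ca'2 : c a' = c u := by
      rw [update_of_ne hwu, cw, update_of_ne ha'u] at ca'
      cases hcu : c u <;> cases hca : c a' <;> simp_all
    have hag3 : ∀ y, c y ≠ c u → y ≠ z → (G.Adj y a ↔ G.Adj y a') := by
      intro y hy hyz
      refine hag2 y ?_ hyz
      have hyu : y ≠ u := by
        rintro rfl
        exact hy rfl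
      rw [update_of_ne hwu, cw, update_of_ne hyu]
      cases hcu : c u <;> cases hcy : c y <;> simp_all
    have hag4 : G.Adj u a ↔ G.Adj u a' := by
      refine hag2 u ?_ hzu.symm
      rw [update_of_ne hwu, cw, update_self]
    have hzz' : z' ≠ z := by
      rintro rfl
      exact nz't zt
    have hat : a = t := by
      by_contra hne
      have b1 : G.Adj a z' := (hag a ca2 hne).1 az
      have b2 : G.Adj z' a' := (hag3 z' cz' hzz').1 b1.symm
      have b3 : a' ≠ t := by
        rintro rfl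
        exact nz't b2
      exact na'z ((hag a' ca'2 b3).2 b2.symm)
    subst hat
    have ha'v : a' ≠ v := by
      rintro rfl
      have b0 : w' ≠ z := by
        rintro rfl
        exact nww zw
      have b1 : G.Adj w' a := (hag3 w' (by rw [huv]; exact v1) b0).2 v2
      rcases t5 w' (by rw [huv]; exact v1) b1 with b2 | b2
      · exact hww b2.symm
      · exact nww b2
    have b4 : G.Adj a' u := (hag4.1 t2.symm).symm
    have hT : a' ∈ T := by
      refine ⟨ca'2, b4, fun h1 => h.noP k4 ca'2 b4 h1, ha'v, fun y hy hya => ?_⟩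
      have hyz : y ≠ z := by
        rintro rfl
        exact na'z hya.symm
      exact t5 y hy ((hag3 y hy hyz).2 hya)
    have hlt : {y | c y ≠ c u ∧ G.Adj y a'}.ncard < {y | c y ≠ c u ∧ G.Adj y a}.ncard := by
      refine Set.ncard_lt_ncard ⟨?_, fun hh => ?_⟩ (Set.toFinite _)
      · rintro y ⟨hy, hya⟩
        have hyz : y ≠ z := by
          rintro rfl
          exact na'z hya.symm
        exact ⟨hy, (hag3 y hy hyz).2 hya⟩
      · exact na'z (hh ⟨cz, zt⟩).2.symm
    exact absurd (tmin a' hT) (not_le.2 hlt)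

/-- In a maximal colouring with two colours there is no bad pair. -/
theorem no_bad2 [Finite V] (k4 : NoK4 G) (hc : G.Connected) (hn : 4 ≤ Nat.card V)
    (h : St G c u v) : False := by
  obtain ⟨w, hw⟩ := h.next
  have hs1 := hw.2.2.2.2
  obtain ⟨x, hx⟩ := hs1.next
  have hs2 := hx.2.2.2.2
  obtain ⟨x2, hx2⟩ := hs2.next
  obtain ⟨w', hw'⟩ := h.symm.next
  obtain ⟨q, cq, qu, qv, qw, nqx, hq⟩ := h.key k4 hc hn hw hx
  obtain ⟨q1, cq1, q1w, q1u, q1x, nq1, hq1⟩ := hs1.key k4 hc hn hx hx2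
  obtain ⟨cx, hxu, hxv, xu, xw, nxv, hx6⟩ := h.next2 k4 hc hn hw hx
  obtain ⟨cx2, hx2w, hx2u, x2w, x2x, nx2u, hx26⟩ := hs1.next2 k4 hc hn hx hx2
  have hww : w ≠ w' := by
    rintro rfl
    exact h.ne k4 hc hn hw hw'
  obtain ⟨w1, w2, w3, w4, w5⟩ := hw
  obtain ⟨v1, v2, v3, v4, v5⟩ := hw'
  have huv : c u = c v := h.bad.2.1
  have hwu : w ≠ u := w2.ne
  have cw : c w = !c u := by
    cases hcu : c u <;> cases hcw : c w <;> simp_all
  have nww : ¬ G.Adj w' w := fun h1 => k4 w' w u v h1 v3 v2 w2 w3 h.bad.1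
  have nqw : ¬ G.Adj q w := fun h1 => k4 q w u v h1 qu qv w2 w3 h.bad.1
  have hq1u : q1 ≠ u := q1u.ne
  rw [update_of_ne hwu, cw, update_of_ne hq1u] at cq1
  have cq1' : c q1 = c u := by
    cases hcu : c u <;> cases hca : c q1 <;> simp_all
  have hq1' : ∀ y, c y ≠ c u → y ≠ x2 → (G.Adj y q1 ↔ G.Adj y x) := by
    intro y hy hyx
    refine hq1 y ?_ hyx
    have hyu : y ≠ u := by
      rintro rfl
      exact hy rfl
    rw [update_of_ne hwu, cw, update_of_ne hyu]
    cases hcu : c u <;> cases hcy : c y <;> simp_all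
  have e1 : G.Adj q1 q := (hq q1 cq1' q1x).2 q1w
  have e2 : q ≠ x2 := by
    rintro rfl
    exact nqw x2w
  exact nqx ((hq1' q cq e2).1 e1.symm)

/-- A class of at least `n / (ω - 1)` vertices without a bad pair. -/
theorem exists_good (V : Type) [Fintype V] (G : SimpleGraph V) (hc : G.Connected) (ω : ℕ)
    (hf : G.CliqueFree (ω + 1)) (h3 : 4 ≤ ω + 1) (hn : ω + 1 ≤ Fintype.card V) :
    ∃ U : Finset V, Good G U ∧ Fintype.card V ≤ (ω - 1) * U.card := by
  classical
  by_cases h : ω = 3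
  · subst h
    obtain ⟨c, hm⟩ := exists_mx (α := Bool) G
    obtain ⟨U, h1, h2⟩ := good_of_no_bad (G := G) (c := c) (fun u v hb =>
      no_bad2 (noK4_of_cliqueFree hf) hc (by rw [Nat.card_eq_fintype_card]; omega) ⟨hm, hb⟩)
    exact ⟨U, h1, by simpa using h2⟩
  · have hne : Nonempty (Fin (ω - 1)) := ⟨⟨0, by omega⟩⟩
    obtain ⟨c, hm⟩ := exists_mx (α := Fin (ω - 1)) G
    obtain ⟨U, h1, h2⟩ := good_of_no_bad (G := G) (c := c) (fun u v hb =>
      no_bad hc (by
        rw [Fintype.card_fin]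
        convert hf using 1
        omega) (by rw [Fintype.card_fin]; omega) (by rw [Fintype.card_fin]; omega) hm hb)
    exact ⟨U, h1, by simpa using h2⟩

theorem main (V : Type) [Fintype V] (G : SimpleGraph V) (hc : G.Connected) (ω : ℕ)
    (hf : G.CliqueFree (ω + 1)) (h3 : 4 ≤ ω + 1) (hn : ω + 1 ≤ Fintype.card V) :
    ∃ W : Finset V,
      (∀ u v : V, G.Adj u v → ∃ w ∈ W, G.dist u w ≠ G.dist v w) ∧
      (W.card : ℝ) ≤ ((ω : ℝ) - 2) / ((ω : ℝ) - 1) * (Fintype.card V : ℝ) := by
  classical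
  obtain ⟨U, hU, hcard⟩ := exists_good V G hc ω hf h3 hn
  refine ⟨Uᶜ, fun u v huv => ?_, ?_⟩
  · by_cases hu : u ∈ U
    · by_cases hv : v ∈ U
      · obtain ⟨z, hz, h1⟩ := hU u hu v hv huv
        refine ⟨z, by simpa using hz, fun h2 => h1 ?_⟩
        rw [G.adj_comm z u, G.adj_comm z v, ← SimpleGraph.dist_eq_one_iff_adj,
          ← SimpleGraph.dist_eq_one_iff_adj, h2]
      · refine ⟨v, by simpa using hv, ?_⟩
        rw [SimpleGraph.dist_self, SimpleGraph.dist_eq_one_iff_adj.2 huv]
        exact one_ne_zero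
    · refine ⟨u, by simpa using hu, ?_⟩
      rw [SimpleGraph.dist_self, SimpleGraph.dist_eq_one_iff_adj.2 huv.symm]
      exact zero_ne_one
  · have h1 : (Uᶜ.card : ℝ) = (Fintype.card V : ℝ) - U.card := by
      rw [Finset.card_compl, Nat.cast_sub (Finset.card_le_univ U)]
    have h4 : (3 : ℝ) ≤ ω := by exact_mod_cast (by omega : 3 ≤ ω)
    have h2 : (Fintype.card V : ℝ) ≤ ((ω : ℝ) - 1) * U.card := by
      have : ((Fintype.card V : ℕ) : ℝ) ≤ (((ω - 1) * U.card : ℕ) : ℝ) := by exact_mod_cast hcard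
      rw [Nat.cast_mul, Nat.cast_sub (by omega)] at this
      simpa using this
    rw [h1]
    have h5 : (0 : ℝ) < (ω : ℝ) - 1 := by linarith
    rw [div_mul_eq_mul_div, le_div_iff₀ h5]
    nlinarith

end Pool.Agent.U195.LMD
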