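import Mathlib

set_option autoImplicit false

/-!
# Vertex-transitive CIS graphs with clique number four and large chromatic number

Let `G` be a triangle-free graph, given by its edges `e : E` and their two ends `ends e false` and
`ends e true`. The vertices of `Lab ends` are the edges of `G` with a label (a Boolean) at both of
their ends; two of them are adjacent when they carry different labels at some common vertex of
`G`. The maximal stable sets are the restrictions of the labellings `f : V → Bool` of the whole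
graph, every maximal clique has four elements and meets all of them, and a proper colouring of
`Lab ends` with `m` colours yields a proper colouring of `G` with `2 ^ m` colours.
-/

namespace Pool.Agent.U195.CISVT

open SimpleGraph

/-- Every maximal clique meets every maximal stable set. -/
def IsCIS {V : Type} (G : SimpleGraph V) : Prop :=
  ∀ K S : Set V, Maximal G.IsClique K → Maximal G.IsIndepSet S → (K ∩ S).Nonempty

/-- The automorphism group acts transitively on the vertices. -/
def IsVertexTransitive {V : Type} (G : SimpleGraph V) : Prop :=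
  ∀ u v : V, ∃ φ : G ≃g G, φ u = v

variable {V E : Type}

/-- The graph of labelled edges. -/
def Lab (ends : E → Bool → V) : SimpleGraph (E × (Bool → Bool)) where
  Adj p q := p ≠ q ∧ ∃ i j, ends p.1 i = ends q.1 j ∧ p.2 i ≠ q.2 j
  symm := ⟨fun p q h => by
    obtain ⟨hne, i, j, h1, h2⟩ := h
    exact ⟨hne.symm, j, i, h1.symm, h2.symm⟩⟩
  loopless := ⟨fun p h => h.1 rfl⟩

/-- Simple and triangle-free. -/
structure Good (ends : E → Bool → V) : Prop where
  inj : ∀ e i j, ends e i = ends e j → i = j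
  simple : ∀ e e' i j i' j', e ≠ e' → ends e i = ends e' j → ends e i' = ends e' j' →
    i = i' ∧ j = j'
  tri : ∀ a b c i i' j j' k k', a ≠ b → b ≠ c → c ≠ a → ends a i = ends b j →
    ends b j' = ends c k → ends c k' = ends a i' → i = i' ∧ j = j' ∧ k = k'

variable {ends : E → Bool → V}

lemma adj_of_fst_eq {p q : E × (Bool → Bool)} (h1 : p.1 = q.1) (h : p ≠ q) :
    (Lab ends).Adj p q := by
  refine ⟨h, ?_⟩
  have h2 : p.2 ≠ q.2 := fun h2 => h (Prod.ext h1 h2)
  obtain ⟨i, hi⟩ := Function.ne_iff.1 h2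
  exact ⟨i, i, by rw [h1], hi⟩

lemma bool_eq_of_ne {a b c : Bool} (h1 : a ≠ c) (h2 : b ≠ c) : a = b := by
  cases a <;> cases b <;> cases c <;> simp_all

/-- The structure of the cliques which are not contained in one edge. -/
lemma clique_struct (hg : Good ends) {K : Set (E × (Bool → Bool))} (hK : (Lab ends).IsClique K)
    {p q : E × (Bool → Bool)} (hp : p ∈ K) (hq : q ∈ K) (hpq : p.1 ≠ q.1) :
    ∃ i j, ends p.1 i = ends q.1 j ∧ p.2 i ≠ q.2 j ∧
      ∀ r ∈ K, (r.1 = p.1 ∧ r.2 i = p.2 i) ∨ (r.1 = q.1 ∧ r.2 j = q.2 j) := by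
  have hne : p ≠ q := fun h => hpq (by rw [h])
  obtain ⟨-, i, j, hij, hl⟩ := hK hp hq hne
  refine ⟨i, j, hij, hl, fun r hr => ?_⟩
  by_cases h1 : r.1 = p.1
  · left
    refine ⟨h1, ?_⟩
    have hrq : r ≠ q := fun h => hpq (by rw [← h1, h])
    obtain ⟨-, i', j', hij', hl'⟩ := hK hr hq hrq
    rw [h1] at hij'
    obtain ⟨rfl, rfl⟩ := hg.simple _ _ _ _ _ _ hpq hij hij'
    exact bool_eq_of_ne hl' hl
  by_cases h2 : r.1 = q.1
  · right
    refine ⟨h2, ?_⟩
    have hrp : r ≠ p := fun h => h1 (by rw [h])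
    obtain ⟨-, j', i', hij', hl'⟩ := hK hr hp hrp
    rw [h2] at hij'
    obtain ⟨rfl, rfl⟩ := hg.simple _ _ _ _ _ _ hpq.symm hij.symm hij'
    exact bool_eq_of_ne hl' hl.symm
  · exfalso
    have hrp : r ≠ p := fun h => h1 (by rw [h])
    have hrq : r ≠ q := fun h => h2 (by rw [h])
    obtain ⟨-, k, i1, hki, hl1⟩ := hK hr hp hrp
    obtain ⟨-, k', j1, hkj, hl2⟩ := hK hr hq hrq
    obtain ⟨e1, e2, e3⟩ := hg.tri p.1 q.1 r.1 i i1 j j1 k' k hpq (Ne.symm h2) h1 hij hkj.symm hki
    subst e1 e2 e3
    exact hl (bool_eq_of_ne hl1.symm hl2.symm)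

/-- The labelled edges given by a labelling of the vertices. -/
def T (ends : E → Bool → V) (f : V → Bool) : Set (E × (Bool → Bool)) :=
  {p | ∀ i, p.2 i = f (ends p.1 i)}

lemma T_indep (f : V → Bool) : (Lab ends).IsIndepSet (T ends f) := by
  intro p hp q hq hne h
  obtain ⟨-, i, j, h1, h2⟩ := h
  exact h2 (by rw [hp i, hq j, h1])

lemma maxStable_eq (hg : Good ends) {S : Set (E × (Bool → Bool))}
    (hS : Maximal (Lab ends).IsIndepSet S) : ∃ f : V → Bool, S = T ends f := by
  classical
  let f : V → Bool := fun u => decide (∃ p ∈ S, ∃ i, ends p.1 i = u ∧ p.2 i = true)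
  have hsub : S ⊆ T ends f := by
    intro p hp i
    by_cases h : p.2 i = true
    · rw [h]
      symm
      exact decide_eq_true ⟨p, hp, i, rfl, h⟩
    · have hf : f (ends p.1 i) = false := by
        apply decide_eq_false
        rintro ⟨q, hq, j, h1, h2⟩
        by_cases hpq : q = p
        · subst hpq
          have := hg.inj _ _ _ h1
          subst this
          exact h h2
        · exact hS.prop hq hp hpq ⟨hpq, j, i, h1, fun h3 => h (by rw [← h3, h2])⟩
      rw [hf]
      simpa using h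
  exact ⟨f, (hS.eq_of_subset (T_indep f) hsub)⟩

lemma isCIS (hg : Good ends) [Nonempty E] : IsCIS (Lab ends) := by
  classical
  intro K S hK hS
  obtain ⟨f, rfl⟩ := maxStable_eq hg hS
  -- adding a vertex of `T f` adjacent to all of `K`
  have key : ∀ p' : E × (Bool → Bool), p' ∈ T ends f →
      (∀ q ∈ K, q ≠ p' → (Lab ends).Adj p' q) → (K ∩ T ends f).Nonempty := by
    intro p' hp' h
    refine ⟨p', ?_, hp'⟩
    have hcl : (Lab ends).IsClique (insert p' K) := by
      rw [SimpleGraph.isClique_insert]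
      exact ⟨hK.prop, fun q hq hne => h q hq hne.symm⟩
    exact hK.mem_of_prop_insert hcl
  have hne : K.Nonempty := by
    by_contra hcon
    rw [Set.not_nonempty_iff_eq_empty] at hcon
    subst hcon
    obtain ⟨e⟩ := ‹Nonempty E›
    have : (Lab ends).IsClique (insert (e, fun _ => true) (∅ : Set (E × (Bool → Bool)))) := by
      rw [SimpleGraph.isClique_insert]
      exact ⟨hK.prop, fun q hq => hq.elim⟩
    exact hK.mem_of_prop_insert this
  by_cases hsame : ∀ p ∈ K, ∀ q ∈ K, p.1 = q.1
  · obtain ⟨p, hp⟩ := hne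
    refine key (p.1, fun i => f (ends p.1 i)) (fun i => rfl) ?_
    intro q hq hqne
    exact adj_of_fst_eq (hsame p hp q hq) hqne.symm
  · push Not at hsame
    obtain ⟨p, hp, q, hq, hpq⟩ := hsame
    obtain ⟨i, j, hij, hl, hstr⟩ := clique_struct hg hK.prop hp hq hpq
    by_cases hf : f (ends p.1 i) = p.2 i
    · refine key (p.1, fun i => f (ends p.1 i)) (fun i => rfl) ?_
      intro r hr hrne
      rcases hstr r hr with ⟨h1, h2⟩ | ⟨h1, h2⟩
      · exact adj_of_fst_eq h1.symm hrne.symm
      · refine ⟨hrne.symm, i, j, ?_, ?_⟩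
        · rw [h1]; exact hij
        · rw [h2]
          show f (ends p.1 i) ≠ q.2 j
          rw [hf]
          exact hl
    · have hf' : f (ends q.1 j) = q.2 j := by
        rw [← hij]
        exact bool_eq_of_ne hf hl.symm
      refine key (q.1, fun i => f (ends q.1 i)) (fun i => rfl) ?_
      intro r hr hrne
      rcases hstr r hr with ⟨h1, h2⟩ | ⟨h1, h2⟩
      · refine ⟨hrne.symm, j, i, ?_, ?_⟩
        · rw [h1]; exact hij.symm
        · rw [h2]
          show f (ends q.1 j) ≠ p.2 i
          rw [hf']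
          exact hl.symm
      · exact adj_of_fst_eq h1.symm hrne.symm

lemma clique_card_le (hg : Good ends) (K : Finset (E × (Bool → Bool)))
    (hK : (Lab ends).IsClique (K : Set (E × (Bool → Bool)))) : K.card ≤ 4 := by
  classical
  by_cases hsame : ∀ p ∈ K, ∀ q ∈ K, p.1 = q.1
  · have h : K.card ≤ (Finset.univ : Finset (Bool → Bool)).card := by
      refine Finset.card_le_card_of_injOn (fun p => p.2) (fun _ _ => Finset.mem_univ _) ?_
      intro p hp q hq h
      exact Prod.ext (hsame p hp q hq) h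
    exact h.trans (by decide)
  · push Not at hsame
    obtain ⟨p, hp, q, hq, hpq⟩ := hsame
    obtain ⟨i, j, hij, hl, hstr⟩ := clique_struct hg hK hp hq hpq
    have h : K.card ≤ (Finset.univ : Finset (Bool × Bool)).card := by
      refine Finset.card_le_card_of_injOn
        (fun r => if r.1 = p.1 then (true, r.2 (!i)) else (false, r.2 (!j)))
        (fun _ _ => Finset.mem_univ _) ?_
      intro r hr s hs h
      have ext2 : ∀ (x y : Bool → Bool) (k : Bool), x k = y k → x (!k) = y (!k) → x = y := by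
        decide
      rcases hstr r hr with ⟨h1, h2⟩ | ⟨h1, h2⟩
      · rcases hstr s hs with ⟨h3, h4⟩ | ⟨h3, h4⟩
        · simp only [h1, h3, if_true, Prod.mk.injEq, true_and] at h
          exact Prod.ext (h1.trans h3.symm) (ext2 _ _ i (h2.trans h4.symm) h)
        · simp only [h1, h3, if_true, if_neg hpq.symm, Prod.mk.injEq] at h
          exact absurd h.1 (by decide)
      · rcases hstr s hs with ⟨h3, h4⟩ | ⟨h3, h4⟩
        · simp only [h1, h3, if_true, if_neg hpq.symm, Prod.mk.injEq] at h
          exact absurd h.1 (by decide)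
        · simp only [h1, h3, if_neg hpq.symm, Prod.mk.injEq, true_and] at h
          exact Prod.ext (h1.trans h3.symm) (ext2 _ _ j (h2.trans h4.symm) h)
    exact h.trans (by decide)

lemma cliqueNum_eq (hg : Good ends) [Finite E] [Nonempty E] : (Lab ends).cliqueNum = 4 := by
  classical
  have := Fintype.ofFinite E
  apply le_antisymm
  · obtain ⟨s, hs⟩ := (Lab ends).exists_isNClique_cliqueNum
    rw [← hs.card_eq]
    exact clique_card_le hg s hs.isClique
  · obtain ⟨e⟩ := ‹Nonempty E›
    have hcl : (Lab ends).IsClique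
        ((Finset.univ.map ⟨fun x : Bool → Bool => (e, x), fun x y h => (Prod.ext_iff.1 h).2⟩ :
          Finset (E × (Bool → Bool))) : Set (E × (Bool → Bool))) := by
      intro p hp q hq hne
      simp only [Finset.coe_map, Finset.coe_univ, Set.image_univ,
        Set.mem_range] at hp hq
      obtain ⟨x, rfl⟩ := hp
      obtain ⟨y, rfl⟩ := hq
      exact adj_of_fst_eq rfl hne
    have := hcl.card_le_cliqueNum
    rw [Finset.card_map] at this
    exact le_trans (by decide) this

/-- A proper colouring of `Lab ends` gives a proper colouring of the graph of `ends` by sets of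
colours. -/
lemma code (hg : Good ends) (m : ℕ) (C : (Lab ends).Coloring (Fin m)) :
    ∃ c : V → Set (Fin m), ∀ e, c (ends e false) ≠ c (ends e true) := by
  refine ⟨fun u => {k | ∃ p : E × (Bool → Bool), ∃ i, ends p.1 i = u ∧ p.2 i = true ∧ C p = k},
    fun e h => ?_⟩
  let p : E × (Bool → Bool) := (e, fun i => !i)
  have h1 : C p ∈ {k | ∃ p : E × (Bool → Bool), ∃ i, ends p.1 i = ends e false ∧
      p.2 i = true ∧ C p = k} := ⟨p, false, rfl, rfl, rfl⟩
  simp only at h
  rw [h] at h1
  obtain ⟨q, j, hj, hq, hC⟩ := h1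
  have hp : p.2 true = false := rfl
  have hne : p.2 true ≠ q.2 j := by
    rw [hq, hp]
    decide
  have hadj : (Lab ends).Adj p q := by
    refine ⟨?_, true, j, hj.symm, hne⟩
    intro hpq
    apply hne
    rw [← hpq] at hj ⊢
    rw [hg.inj _ _ _ hj]
  exact C.valid hadj hC.symm

/-! ### Vertex transitivity -/

/-- Flipping the labels. -/
def flipFun (ends : E → Bool → V) (φ : V → Bool) (p : E × (Bool → Bool)) : E × (Bool → Bool) :=
  (p.1, fun i => xor (p.2 i) (φ (ends p.1 i)))

lemma flipFun_flipFun (φ : V → Bool) (p : E × (Bool → Bool)) :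
    flipFun ends φ (flipFun ends φ p) = p := by
  simp [flipFun]

lemma flipFun_adj (φ : V → Bool) (p q : E × (Bool → Bool)) (h : (Lab ends).Adj p q) :
    (Lab ends).Adj (flipFun ends φ p) (flipFun ends φ q) := by
  obtain ⟨hne, i, j, h1, h2⟩ := h
  refine ⟨fun h => hne ?_, i, j, h1, ?_⟩
  · rw [← flipFun_flipFun (ends := ends) φ p, h, flipFun_flipFun]
  · simp only [flipFun, h1]
    intro h
    exact h2 ((Bool.xor_left_inj (x := p.2 i) (y := q.2 j) (z := φ (ends q.1 j))).1 h)

/-- Flipping the labels, as an automorphism. -/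
def flip (ends : E → Bool → V) (φ : V → Bool) : Lab ends ≃g Lab ends where
  toFun := flipFun ends φ
  invFun := flipFun ends φ
  left_inv p := flipFun_flipFun φ p
  right_inv p := flipFun_flipFun φ p
  map_rel_iff' := by
    intro p q
    constructor
    · intro h
      have := flipFun_adj φ _ _ h
      simpa [flipFun_flipFun] using this
    · exact flipFun_adj φ p q

/-- An automorphism of the graph of `ends` acts on the labelled edges. -/
def act (σ : E ≃ E) (τ : V ≃ V) (h : ∀ e i, ends (σ e) i = τ (ends e i)) :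
    Lab ends ≃g Lab ends where
  toFun p := (σ p.1, p.2)
  invFun p := (σ.symm p.1, p.2)
  left_inv p := by simp
  right_inv p := by simp
  map_rel_iff' := by
    intro p q
    simp only [Equiv.coe_fn_mk, Lab, h, EmbeddingLike.apply_eq_iff_eq, ne_eq, Prod.ext_iff]

lemma isVertexTransitive (hg : Good ends)
    (htr : ∀ e e' : E, ∃ (σ : E ≃ E) (τ : V ≃ V), σ e = e' ∧ ∀ e i, ends (σ e) i = τ (ends e i)) :
    IsVertexTransitive (Lab ends) := by
  classical
  intro p q
  obtain ⟨σ, τ, hσ, h⟩ := htr p.1 q.1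
  let φ : V → Bool := fun v => if v = ends q.1 false then xor (p.2 false) (q.2 false) else
    if v = ends q.1 true then xor (p.2 true) (q.2 true) else false
  refine ⟨(act σ τ h).trans (flip ends φ), ?_⟩
  show ((σ p.1), fun i => xor (p.2 i) (φ (ends (σ p.1) i))) = q
  rw [hσ]
  refine Prod.ext rfl (funext fun i => ?_)
  have h0 : ends q.1 true ≠ ends q.1 false := fun h => by simpa using hg.inj _ _ _ h
  cases i
  · simp [φ]
  · simp [φ, h0]

/-! ### An edge-transitive triangle-free graph with large chromatic number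

The vertices are the triples of distinct elements of `Fin N`, the edges join `(a, b, c)` to
`(b, c, d)` for distinct `a, b, c, d`. -/

/-- The ends of the edge `(a, b, c) — (b, c, d)`. -/
def shiftEnds (N : ℕ) (e : Fin 4 ↪ Fin N) (i : Bool) : Fin 3 → Fin N :=
  fun k => if i then e k.succ else e k.castSucc

lemma shiftEnds_iff {N : ℕ} (e e' : Fin 4 ↪ Fin N) (i j : Bool) :
    shiftEnds N e i = shiftEnds N e' j ↔
      (if i then e 1 else e 0) = (if j then e' 1 else e' 0) ∧
      (if i then e 2 else e 1) = (if j then e' 2 else e' 1) ∧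
      (if i then e 3 else e 2) = (if j then e' 3 else e' 2) := by
  rw [funext_iff, Fin.forall_fin_succ, Fin.forall_fin_two]
  rfl

lemma emb_ne {N : ℕ} (e : Fin 4 ↪ Fin N) : e 0 ≠ e 1 ∧ e 0 ≠ e 2 ∧ e 0 ≠ e 3 ∧ e 1 ≠ e 2 ∧
    e 1 ≠ e 3 ∧ e 2 ≠ e 3 := by
  refine ⟨?_, ?_, ?_, ?_, ?_, ?_⟩ <;> exact fun h => absurd (e.injective h) (by decide)

lemma emb_ext {N : ℕ} {e e' : Fin 4 ↪ Fin N} (h0 : e 0 = e' 0) (h1 : e 1 = e' 1)
    (h2 : e 2 = e' 2) (h3 : e 3 = e' 3) : e = e' := by
  ext k
  fin_cases k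
  · exact congrArg _ h0
  · exact congrArg _ h1
  · exact congrArg _ h2
  · exact congrArg _ h3

lemma good_shift (N : ℕ) : Good (shiftEnds N) where
  inj := by
    intro e i j h
    rw [shiftEnds_iff] at h
    obtain ⟨h1, h2, h3, h4, h5, h6⟩ := emb_ne e
    cases i <;> cases j <;> simp_all
  simple := by
    intro e e' i j i' j' hne h h'
    rw [shiftEnds_iff] at h h'
    obtain ⟨h1, h2, h3, h4, h5, h6⟩ := emb_ne e
    obtain ⟨k1, k2, k3, k4, k5, k6⟩ := emb_ne e'
    have hext : ¬ (e 0 = e' 0 ∧ e 1 = e' 1 ∧ e 2 = e' 2 ∧ e 3 = e' 3) :=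
      fun h => hne (emb_ext h.1 h.2.1 h.2.2.1 h.2.2.2)
    cases i <;> cases j <;> cases i' <;> cases j' <;> simp only [if_true, if_false,
      Bool.false_eq_true] at h h' ⊢ <;> grind
  tri := by
    intro a b c i i' j j' k k' hab hbc hca h h' h''
    rw [shiftEnds_iff] at h h' h''
    obtain ⟨h1, h2, h3, h4, h5, h6⟩ := emb_ne a
    obtain ⟨k1, k2, k3, k4, k5, k6⟩ := emb_ne b
    obtain ⟨l1, l2, l3, l4, l5, l6⟩ := emb_ne c
    have hext : ¬ (a 0 = b 0 ∧ a 1 = b 1 ∧ a 2 = b 2 ∧ a 3 = b 3) :=
      fun h => hab (emb_ext h.1 h.2.1 h.2.2.1 h.2.2.2)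
    have hext' : ¬ (b 0 = c 0 ∧ b 1 = c 1 ∧ b 2 = c 2 ∧ b 3 = c 3) :=
      fun h => hbc (emb_ext h.1 h.2.1 h.2.2.1 h.2.2.2)
    have hext'' : ¬ (c 0 = a 0 ∧ c 1 = a 1 ∧ c 2 = a 2 ∧ c 3 = a 3) :=
      fun h => hca (emb_ext h.1 h.2.1 h.2.2.1 h.2.2.2)
    clear hab hbc hca
    cases i <;> cases j <;> cases i' <;> cases j' <;> cases k <;> cases k' <;>
      simp only [if_true, if_false, Bool.false_eq_true] at h h' h'' ⊢ <;> grind

lemma trans_shift (N : ℕ) (e e' : Fin 4 ↪ Fin N) :
    ∃ (σ : (Fin 4 ↪ Fin N) ≃ (Fin 4 ↪ Fin N)) (τ : (Fin 3 → Fin N) ≃ (Fin 3 → Fin N)),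
      σ e = e' ∧ ∀ e i, shiftEnds N (σ e) i = τ (shiftEnds N e i) := by
  obtain ⟨g, hg⟩ := (Equiv.Perm.isMultiplyPretransitive (Fin N) 4).exists_smul_eq e e'
  refine ⟨MulAction.toPerm g, Equiv.arrowCongr (Equiv.refl _) g, hg, fun e i => ?_⟩
  funext k
  cases i <;> rfl

/-- The lower bound for the chromatic number. -/
lemma le_of_code {N : ℕ} {K : Type} [Fintype K] (c : (Fin 3 → Fin N) → K)
    (hc : ∀ e : Fin 4 ↪ Fin N, c (shiftEnds N e false) ≠ c (shiftEnds N e true)) :
    N ≤ 2 ^ 2 ^ Fintype.card K := by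
  classical
  have hc' : ∀ a b x y : Fin N, a < b → b < x → x < y → c ![a, b, x] ≠ c ![b, x, y] := by
    intro a b x y h1 h2 h3
    have hinj : Function.Injective ![a, b, x, y] := by
      have hm : StrictMono ![a, b, x, y] := by
        rw [Fin.strictMono_iff_lt_succ]
        intro i
        fin_cases i
        · exact h1
        · exact h2
        · exact h3
      exact hm.injective
    have h := hc ⟨_, hinj⟩
    have e1 : shiftEnds N ⟨_, hinj⟩ false = ![a, b, x] := by
      funext k; fin_cases k <;> rfl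
    have e2 : shiftEnds N ⟨_, hinj⟩ true = ![b, x, y] := by
      funext k; fin_cases k <;> rfl
    rwa [e1, e2] at h
  let d : Fin N → Fin N → Set K := fun a b => {k | ∃ x, b < x ∧ c ![a, b, x] = k}
  have hd : ∀ a b x, a < b → b < x → d a b ≠ d b x := by
    intro a b x h1 h2 h
    have hk : c ![a, b, x] ∈ d a b := ⟨x, h2, rfl⟩
    rw [h] at hk
    obtain ⟨y, hy, hcy⟩ := hk
    exact hc' a b x y h1 h2 hy hcy.symm
  let g : Fin N → Set (Set K) := fun a => {s | ∃ b, a < b ∧ d a b = s}
  have hginj : Function.Injective g := by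
    have key : ∀ a b, a < b → g a ≠ g b := by
      intro a b h1 h
      have hk : d a b ∈ g a := ⟨b, h1, rfl⟩
      rw [h] at hk
      obtain ⟨x, hx, hdx⟩ := hk
      exact hd a b x h1 hx hdx.symm
    intro a b h
    rcases lt_trichotomy a b with h1 | h1 | h1
    · exact absurd h (key a b h1)
    · exact h1
    · exact absurd h.symm (key b a h1)
  have := Fintype.card_le_of_injective g hginj
  simpa [Fintype.card_set] using this

theorem main (m : ℕ) : ∃ (V : Type) (_ : Fintype V) (Γ : SimpleGraph V),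
    IsVertexTransitive Γ ∧ IsCIS Γ ∧ Γ.cliqueNum = 4 ∧ ¬ Γ.Colorable m := by
  classical
  let N : ℕ := 2 ^ 2 ^ 2 ^ m + 4
  have hN : 4 ≤ N := Nat.le_add_left 4 _
  have : Nonempty (Fin 4 ↪ Fin N) := ⟨(Fin.castLEEmb hN)⟩
  refine ⟨(Fin 4 ↪ Fin N) × (Bool → Bool), inferInstance, Lab (shiftEnds N),
    isVertexTransitive (good_shift N) (trans_shift N), isCIS (good_shift N),
    cliqueNum_eq (good_shift N), ?_⟩
  rintro ⟨C⟩
  obtain ⟨c, hc⟩ := code (good_shift N) m C
  have h := le_of_code c hc
  rw [Fintype.card_set, Fintype.card_fin] at h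
  have : N = 2 ^ 2 ^ 2 ^ m + 4 := rfl
  omega

end Pool.Agent.U195.CISVT
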